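import Pool.Agent.Helper7.OT.Ext
import Pool.Agent.Helper345.CubeSec

open MeasureTheory Matrix
open scoped ENNReal

namespace Pool.Agent.Results.MP_589a62_gt.MaximalSections

/-- The `k`-dimensional volume of the central section `C^n ∩ S` of the cube
`C^n = [-1/2, 1/2]^n`; `μHE[k]` is Mathlib's `k`-dimensional Hausdorff measure, normalised so that
it is Lebesgue measure on `k`-dimensional Euclidean spaces. -/
noncomputable def sectionVolume {n : ℕ} (k : ℕ) (S : Submodule ℝ (EuclideanSpace ℝ (Fin n))) :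
    ℝ≥0∞ :=
  μHE[k] {x : EuclideanSpace ℝ (Fin n) | x ∈ S ∧ ∀ i, |x i| ≤ 1 / 2}

/-- The value `ℓ^((k-r)/2) (ℓ+1)^(r/2)` for `n = k ℓ + r`, `0 ≤ r < k`. -/
noncomputable def V (n k : ℕ) : ℝ :=
  √(((n / k : ℕ) : ℝ) ^ (k - n % k) * (((n / k : ℕ) : ℝ) + 1) ^ (n % k))

open Pool.Agent.Helper7.Simplex in
theorem upper (n k : ℕ) (hk : 1 ≤ k) (hn : 2 * k ≤ n)
    (H : Submodule ℝ (EuclideanSpace ℝ (Fin n))) (hH : Module.finrank ℝ H = k) :
    sectionVolume k H ≤ ENNReal.ofReal (V n k) := by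
  obtain ⟨u, hu, hvol⟩ := Cube.J21032.geo n k H hH
  have h1 : sectionVolume k H =
      volume {x : H | ∀ i, |(x : EuclideanSpace ℝ (Fin n)) i| ≤ 1 / 2} := by
    have e : {x : EuclideanSpace ℝ (Fin n) | x ∈ H ∧ ∀ i, |x i| ≤ 1 / 2} =
        (Subtype.val : H → EuclideanSpace ℝ (Fin n)) ''
          {x : H | ∀ i, |(x : EuclideanSpace ℝ (Fin n)) i| ≤ 1 / 2} := by
      ext x
      constructor
      · rintro ⟨hx, h⟩
        exact ⟨⟨x, hx⟩, h, rfl⟩
      · rintro ⟨y, hy, rfl⟩
        exact ⟨y.2, hy⟩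
    unfold sectionVolume
    rw [e, isometry_subtype_coe.euclideanHausdorffMeasure_image, ← hH,
      InnerProductSpace.euclideanHausdorffMeasure_eq_volume]
  have hl : 2 ≤ n / k := (Nat.le_div_iff_mul_le (by omega)).mpr hn
  have hN : n ≤ (n / k + 1) * k := by
    have := Nat.div_add_mod n k
    have h2 := Nat.mod_lt n (show 0 < k by omega)
    nlinarith
  have hdet : (∑ i, vecMulVec (u i) (u i)).det = 1 := by rw [hu, det_one]
  have hc := OT.J31279.core u (n / k + 1) (by omega) (by rw [Fintype.card_fin]; exact hN)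
    (by rw [hdet]; norm_num) (fun m w hdet => J7756.E_factor w hdet)
    (fun A hA Vol h1 h2 => Cube.J21031.C_extremal (fun G hG u => J7756.E_det G hG u) u (n / k + 1)
      (by omega) A hA (by rw [Fintype.card_fin]; exact hN) (by rw [hdet]; norm_num) Vol h1 h2)
    (fun m w hI hc hc' => OT.iso3 w hI (n / k + 1) (by omega) hc hc')
  rw [hdet, Real.sqrt_one, ENNReal.ofReal_one, mul_one, Fintype.card_fin] at hc
  rw [h1, hvol]
  refine hc.trans (le_of_eq ?_)
  congr 1
  exact Cube.J21033.numV n k hk (by omega)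

/-- **The maximal volume of central sections of the cube**: for `n ≥ 2k` the greatest volume
of a `k`-dimensional central section of `C^n` is `V n k`. -/
theorem result (n k : ℕ) (hk : 1 ≤ k) (hn : 2 * k ≤ n) :
    IsGreatest {v : ℝ≥0∞ | ∃ S : Submodule ℝ (EuclideanSpace ℝ (Fin n)),
      Module.finrank ℝ S = k ∧ v = sectionVolume k S} (ENNReal.ofReal (V n k)) := by
  constructor
  · obtain ⟨S, hS, hv⟩ := Pool.Agent.Helper345.CubeSec.attained n k hk (by omega)
    exact ⟨S, hS, hv.symm⟩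
  · rintro v ⟨S, hS, rfl⟩
    exact upper n k hk hn S hS

end Pool.Agent.Results.MP_589a62_gt.MaximalSections
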